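import Pool.Agent.T2h16.KD.Stm

/-! Project KD: the common part of FEW and BAD (helper64). -/

set_option autoImplicit false
set_option linter.unusedVariables false

open scoped Classical

namespace Pool.Agent.T3h64.KD

open Finset Filter
open Pool.Agent.Y698 hiding zz
open Pool.Agent.Y698.SG
open Pool.Agent.T2h78.TW (PO te sl)
open Pool.Agent.Y703.CX (jj XX eL zz kk)
open Pool.Agent.Y703.CQ (sg S_MER)
open Pool.Agent.T2h16.KD
open Pool.Agent.Y699.E (sum_le_inj one_le_lg lg_pos lg_mono log_le_lg)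

lemma nrm_prod {ι : Type*} (s : Finset ι) (p : ι → RR) :
    nrm (∏ i ∈ s, p i) = ∏ i ∈ s, nrm (p i) := by
  induction s using Finset.induction_on with
  | empty => rw [prod_empty, prod_empty]; exact nrm_one
  | insert a s ha ih => rw [prod_insert ha, prod_insert ha, nrm_mul, ih]

lemma mf_nonneg {g : RR → ℝ} (h0 : ∀ π, 0 ≤ g π) (n : RR) : 0 ≤ mf g n :=
  prod_nonneg fun _ _ => h0 _

theorem pN_pos {S : Finset RR} (h : ∀ π ∈ S, PO π) : 0 < pN S :=
  Finset.prod_pos fun π hπ => nrm_pos' (pq_ne (h π hπ))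

/-- the large parts are counted by squarefree elements -/
theorem fiber_le (X z : ℕ) (S₀ : Finset RR) (hS₀ : ∀ u ∈ S₀, PO u)
    (F : Finset (Finset RR)) (hF : ∀ S ∈ F, S ∈ SS X ∧ sm z S = S₀) (g : RR → ℝ)
    (hg : ∀ π, 0 ≤ g π) (c : ℝ) (hc : ∀ S ∈ F, c ≤ ∏ π ∈ la z S, g π) :
    (F.card : ℝ) * c ≤ ∑ n ∈ SB (X / pN S₀), mf g n := by
  have hpr : ∀ S ∈ F, (∀ π ∈ S, PO π) ∧ ∏ π ∈ S, nrm π ≤ X := by
    intro S hS
    have h := (hF S hS).1
    unfold SS at h
    rw [mem_filter] at h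
    exact ⟨h.2.1.1, h.2.2⟩
  rw [← nsmul_eq_mul, ← sum_const]
  refine sum_le_inj (fun S => ∏ π ∈ la z S, π) ?_ ?_ ?_ ?_
  · intro S hS
    obtain ⟨h1, h2⟩ := hpr S hS
    rw [mem_SB]
    refine ⟨?_, (PS_prod fun π hπ => h1 π (filter_subset _ _ hπ)).1⟩
    rw [Nat.le_div_iff_mul_le (pN_pos hS₀), nrm_prod, mul_comm]
    have : (∏ π ∈ sm z S, nrm π) * ∏ π ∈ la z S, nrm π = ∏ π ∈ S, nrm π :=
      prod_filter_mul_prod_filter_not _ _ _
    unfold pN
    rw [← (hF S hS).2, this]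
    exact h2
  · intro S hS T hT h
    have e1 := (PS_prod (S := la z S) fun π hπ => (hpr S hS).1 π (filter_subset _ _ hπ)).2
    have e2 := (PS_prod (S := la z T) fun π hπ => (hpr T hT).1 π (filter_subset _ _ hπ)).2
    have e3 : la z S = la z T := by
      rw [← e1, ← e2]
      exact congrArg Pool.Agent.T2h16.KD.PD h
    have key : ∀ S : Finset RR, sm z S ∪ la z S = S := fun S => filter_union_filter_not_eq _ _
    rw [← key S, ← key T, (hF S hS).2, (hF T hT).2, e3]
  · intro S hS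
    refine (hc S hS).trans (le_of_eq ?_)
    unfold mf
    rw [(PS_prod (S := la z S) fun π hπ => (hpr S hS).1 π (filter_subset _ _ hπ)).2]
  · intro n _
    exact mf_nonneg hg n

end Pool.Agent.T3h64.KD
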